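import Pool.Agent.Y489.GE.Stm

/-! The cube has covering dimension at most `q` (Freudenthal stars). -/

set_option autoImplicit false

open Set Topology unitInterval

noncomputable section

namespace Pool.Agent.Y26.GE

open Pool.Agent.Y489.GE

/-- open star of the vertex `w` -/
def St (q M : ℕ) (w : Fin q → Fin (M + 1)) : Set (Fin q → I) :=
  {x | (∀ i, |(M : ℝ) * (x i : ℝ) - (w i : ℕ)| < 1) ∧
    ∀ i j, max 0 ((M : ℝ) * (x i : ℝ) - (w i : ℕ)) + max 0 (((w j : ℕ) : ℝ) - (M : ℝ) * (x j : ℝ)) < 1}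

theorem St_open (q M : ℕ) (w : Fin q → Fin (M + 1)) : IsOpen (St q M w) := by
  have h1 : IsOpen {x : Fin q → I | ∀ i, |(M : ℝ) * (x i : ℝ) - (w i : ℕ)| < 1} := by
    rw [ofPred_forall]
    refine isOpen_iInter_of_finite fun i => ?_
    exact isOpen_lt (by fun_prop) continuous_const
  have h2 : IsOpen {x : Fin q → I | ∀ i j, max 0 ((M : ℝ) * (x i : ℝ) - (w i : ℕ)) +
      max 0 (((w j : ℕ) : ℝ) - (M : ℝ) * (x j : ℝ)) < 1} := by
    rw [ofPred_forall]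
    refine isOpen_iInter_of_finite fun i => ?_
    rw [ofPred_forall]
    refine isOpen_iInter_of_finite fun j => ?_
    exact isOpen_lt (by fun_prop) continuous_const
  exact h1.inter h2

theorem St_two {q M : ℕ} {w : Fin q → Fin (M + 1)} {x : Fin q → I} (h : x ∈ St q M w) (i : Fin q) :
    (w i : ℕ) = ⌊(M : ℝ) * (x i : ℝ)⌋₊ ∨ (w i : ℕ) = ⌊(M : ℝ) * (x i : ℝ)⌋₊ + 1 := by
  have h1 := abs_lt.1 (h.1 i)
  have h0 : (0 : ℝ) ≤ (M : ℝ) * (x i : ℝ) := mul_nonneg (Nat.cast_nonneg _) (x i).2.1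
  have h2 := Nat.floor_le h0
  have h3 := Nat.lt_floor_add_one ((M : ℝ) * (x i : ℝ))
  have h4 : ((⌊(M : ℝ) * (x i : ℝ)⌋₊ : ℕ) : ℝ) < ((w i : ℕ) : ℝ) + 1 := by linarith [h1.2]
  have h5 : ((w i : ℕ) : ℝ) < ((⌊(M : ℝ) * (x i : ℝ)⌋₊ : ℕ) : ℝ) + 2 := by linarith [h1.1]
  have h6 : ⌊(M : ℝ) * (x i : ℝ)⌋₊ < (w i : ℕ) + 1 := by exact_mod_cast h4
  have h7 : (w i : ℕ) < ⌊(M : ℝ) * (x i : ℝ)⌋₊ + 2 := by exact_mod_cast h5
  omega

/-- the raised coordinates -/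
def Rs {q M : ℕ} (x : Fin q → I) (w : Fin q → Fin (M + 1)) : Finset (Fin q) :=
  Finset.univ.filter (fun i => (w i : ℕ) = ⌊(M : ℝ) * (x i : ℝ)⌋₊ + 1)

theorem Rs_lt {q M : ℕ} {w : Fin q → Fin (M + 1)} {x : Fin q → I} (h : x ∈ St q M w) {i j : Fin q}
    (hi : i ∈ Rs x w) (hj : j ∉ Rs x w) :
    (M : ℝ) * (x j : ℝ) - ⌊(M : ℝ) * (x j : ℝ)⌋₊ < (M : ℝ) * (x i : ℝ) - ⌊(M : ℝ) * (x i : ℝ)⌋₊ := by
  unfold Rs at hi hj
  rw [Finset.mem_filter] at hi hj
  have hi' := hi.2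
  have hj' : (w j : ℕ) = ⌊(M : ℝ) * (x j : ℝ)⌋₊ := by
    rcases St_two h j with k | k
    · exact k
    · exact absurd ⟨Finset.mem_univ _, k⟩ hj
  have h1 := h.2 j i
  have h2 := le_max_right 0 ((M : ℝ) * (x j : ℝ) - (w j : ℕ))
  have h3 := le_max_right 0 (((w i : ℕ) : ℝ) - (M : ℝ) * (x i : ℝ))
  rw [hj'] at h1 h2
  rw [hi'] at h1 h3
  push_cast at h1 h2 h3
  linarith

theorem Rs_inj {q M : ℕ} {w w' : Fin q → Fin (M + 1)} {x : Fin q → I} (h : x ∈ St q M w)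
    (h' : x ∈ St q M w') (hc : (Rs x w).card = (Rs x w').card) : w = w' := by
  have hcomp : Rs x w ⊆ Rs x w' ∨ Rs x w' ⊆ Rs x w := by
    by_contra hcon
    push Not at hcon
    obtain ⟨h1, h2⟩ := hcon
    rw [Finset.not_subset] at h1 h2
    obtain ⟨i, hi, hi'⟩ := h1
    obtain ⟨j, hj, hj'⟩ := h2
    have k1 := Rs_lt h hi hj'
    have k2 := Rs_lt h' hj hi'
    linarith
  have heq : Rs x w = Rs x w' := by
    rcases hcomp with k | k
    · exact Finset.eq_of_subset_of_card_le k hc.ge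
    · exact (Finset.eq_of_subset_of_card_le k hc.le).symm
  funext i
  apply Fin.ext
  by_cases hi : i ∈ Rs x w
  · have hi' : i ∈ Rs x w' := heq ▸ hi
    unfold Rs at hi hi'
    rw [Finset.mem_filter] at hi hi'
    rw [hi.2, hi'.2]
  · have hi' : i ∉ Rs x w' := heq ▸ hi
    unfold Rs at hi hi'
    rw [Finset.mem_filter] at hi hi'
    rcases St_two h i with k | k
    · rcases St_two h' i with k' | k'
      · rw [k, k']
      · exact absurd ⟨Finset.mem_univ _, k'⟩ hi'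
    · exact absurd ⟨Finset.mem_univ _, k⟩ hi

theorem t_KUHN : S_KUHN := by
  intro q ε hε
  obtain ⟨M, hM⟩ := exists_nat_gt (2 / ε)
  have hM0 : (0 : ℝ) < M := lt_trans (by positivity) hM
  have hMε : 2 / (M : ℝ) ≤ ε := by
    rw [div_lt_iff₀ hε] at hM
    rw [div_le_iff₀ hM0]; linarith
  let e := Fintype.equivFin (Fin q → Fin (M + 1))
  refine ⟨Fintype.card (Fin q → Fin (M + 1)), fun k => St q M (e.symm k),
    fun k => St_open _ _ _, ?_, ?_, ?_⟩
  · intro k x hx y hy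
    rw [dist_pi_le_iff hε.le]
    intro i
    have h1 := abs_lt.1 (hx.1 i)
    have h2 := abs_lt.1 (hy.1 i)
    rw [Subtype.dist_eq, Real.dist_eq]
    refine le_trans ?_ hMε
    rw [le_div_iff₀ hM0]
    have h3 : |(x i : ℝ) - (y i : ℝ)| * M = |(M : ℝ) * (x i : ℝ) - (M : ℝ) * (y i : ℝ)| := by
      rw [← mul_sub, abs_mul, abs_of_pos hM0, mul_comm]
    rw [h3]
    apply le_of_lt
    rw [abs_lt]
    constructor
    · linarith [h1.1, h2.2]
    · linarith [h1.2, h2.1]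
  · intro x
    have hlt : ∀ i, ⌊(M : ℝ) * (x i : ℝ)⌋₊ < M + 1 := by
      intro i
      have h1 : (M : ℝ) * (x i : ℝ) ≤ M := by
        have := mul_le_mul_of_nonneg_left (x i).2.2 hM0.le
        rwa [mul_one] at this
      have h2 := Nat.floor_le_floor h1
      rw [Nat.floor_natCast] at h2
      omega
    refine ⟨e fun i => ⟨⌊(M : ℝ) * (x i : ℝ)⌋₊, hlt i⟩, ?_⟩
    show x ∈ St q M (e.symm (e _))
    rw [Equiv.symm_apply_apply]
    have key : ∀ i, (0 : ℝ) ≤ (M : ℝ) * (x i : ℝ) - ⌊(M : ℝ) * (x i : ℝ)⌋₊ ∧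
        (M : ℝ) * (x i : ℝ) - ⌊(M : ℝ) * (x i : ℝ)⌋₊ < 1 := by
      intro i
      have h0 : (0 : ℝ) ≤ (M : ℝ) * (x i : ℝ) := mul_nonneg (Nat.cast_nonneg _) (x i).2.1
      have h2 := Nat.floor_le h0
      have h3 := Nat.lt_floor_add_one ((M : ℝ) * (x i : ℝ))
      constructor <;> linarith
    refine ⟨fun i => ?_, fun i j => ?_⟩
    · show |(M : ℝ) * (x i : ℝ) - ((⌊(M : ℝ) * (x i : ℝ)⌋₊ : ℕ) : ℝ)| < 1
      rw [abs_of_nonneg (key i).1]; exact (key i).2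
    · show max 0 ((M : ℝ) * (x i : ℝ) - ((⌊(M : ℝ) * (x i : ℝ)⌋₊ : ℕ) : ℝ)) +
        max 0 (((⌊(M : ℝ) * (x j : ℝ)⌋₊ : ℕ) : ℝ) - (M : ℝ) * (x j : ℝ)) < 1
      rw [max_eq_right (key i).1, max_eq_left (by linarith [(key j).1]), add_zero]
      exact (key i).2
  · intro x
    have hle : ∀ k : {k : Fin (Fintype.card (Fin q → Fin (M + 1))) // x ∈ St q M (e.symm k)},
        (Rs x (e.symm k.1)).card < q + 1 := by
      intro k
      have := Finset.card_le_univ (Rs x (e.symm k.1))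
      rw [Fintype.card_fin] at this
      omega
    have hinj : Function.Injective
        (fun k : {k : Fin (Fintype.card (Fin q → Fin (M + 1))) // x ∈ St q M (e.symm k)} =>
          (⟨(Rs x (e.symm k.1)).card, hle k⟩ : Fin (q + 1))) := by
      intro k k' hk
      have h1 : (Rs x (e.symm k.1)).card = (Rs x (e.symm k'.1)).card := congrArg Fin.val hk
      have h2 := Rs_inj k.2 k'.2 h1
      exact Subtype.ext (e.symm.injective h2)
    have := Nat.card_le_card_of_injective _ hinj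
    rwa [Nat.card_fin] at this

end Pool.Agent.Y26.GE
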